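import Pool.Agent.H679R2.Mix.Final

set_option autoImplicit false

/-!
# The graphs of the reduction to `k`-colour mixing are connected, `(k-2)`-colourable and
`(k-1)`-degenerate
-/

namespace Pool.Agent.Y646.MX

open Pool.Agent.NPC Pool.Agent.NPC.Mix

/-- `G` is `d`-degenerate: every nonempty finite set `S` of vertices has a vertex with at most `d`
neighbours in `S`. -/
def Degenerate {V : Type*} (G : SimpleGraph V) (d : ℕ) : Prop :=
  ∀ S : Finset V, S.Nonempty → ∃ v ∈ S, {u | u ∈ S ∧ G.Adj v u}.ncard ≤ d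

theorem degenerate_of_rank {V : Type*} (G : SimpleGraph V) (d : ℕ) (r : V → ℕ)
    (h : ∀ v, ∃ N : Finset V, N.card ≤ d ∧ ∀ u, G.Adj v u → r v ≤ r u → u ∈ N) :
    Degenerate G d := by
  intro S hS
  obtain ⟨v, hv, hmin⟩ := Finset.exists_min_image S r hS
  obtain ⟨N, hN, hN'⟩ := h v
  refine ⟨v, hv, le_trans ?_ hN⟩
  rw [← Set.ncard_coe_finset N]
  exact Set.ncard_le_ncard (fun u hu => hN' u hu.2 (hmin u hu.1)) N.finite_toSet

section

variable {I : NC}

open Classical in
/-- ranks of labels -/
noncomputable def rkD (I : NC) : Lb → ℕ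
  | Sum.inl (t, i) => if Sx I t i then 1 else 0
  | Sum.inr (Sum.inr _) => 2
  | Sum.inr (Sum.inl _) => 3

theorem rkD_lt (a : Lb) : rkD I a < 4 := by
  rcases a with ⟨t, i⟩ | x | ⟨e, j⟩
  · simp only [rkD]; split_ifs <;> omega
  · simp [rkD]
  · simp [rkD]

theorem rkD_deg (v : Lb) : ∃ n₁ n₂ n₃ : Lb, ∀ u, adj I v u → rkD I v ≤ rkD I u →
    u = n₁ ∨ u = n₂ ∨ u = n₃ := by
  classical
  have hT := nT_ge (I := I)
  rcases v with ⟨t, i⟩ | x | ⟨e, j⟩
  · by_cases hm : (Sum.inl (t, i) : Lb) ∈ verts I
    · rw [mem_chain] at hm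
      by_cases hS : Sx I t i
      · have hb := Sx_bd hS
        by_cases hu : ∃ u', (Sum.inr u' : Lb) ∈ verts I ∧ t = slot I u' i
        · obtain ⟨u', hu1, hu2⟩ := hu
          refine ⟨Sum.inr u', Sum.inr u', Sum.inr u', fun u hadj hr => Or.inl ?_⟩
          have hmu := hadj.2.1
          have hr1 : 1 ≤ rkD I u := by
            have : rkD I (Sum.inl (t, i)) = 1 := by simp only [rkD]; rw [if_pos hS]
            omega
          have hSx : ∀ s j, u = Sum.inl (s, j) → Sx I s j := by
            intro s j hsj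
            by_contra hn
            rw [hsj] at hr1
            simp only [rkD] at hr1
            rw [if_neg hn] at hr1
            omega
          rcases adj_inl hadj with ⟨j, h1, h2, -, h3⟩ | ⟨s, j, h1, h2, h3, -, h4⟩ | ⟨h1, -⟩ |
            ⟨h1, h2, h3⟩ | ⟨w, h1, h2, h3⟩ | ⟨h1, -⟩
          · have e1 : nx I t = t + 1 := by unfold nx; rw [if_neg (by omega)]
            rw [e1] at h3
            have := Sx_one hS (hSx _ _ h3) (by omega) (by omega)
            omega
          · rcases nx_eq h2 h3 with ⟨h5, h6⟩ | ⟨h5, h6, -⟩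
            · omega
            · have := Sx_one (hSx _ _ h4) hS (by omega) (by omega)
              omega
          · omega
          · have := Sx_bd (hSx _ _ h3)
            omega
          · rw [h3] at hmu ⊢
            rw [slot_inj hmu hu1 hm.2 (by rw [← h1, ← hu2])]
          · omega
        · refine ⟨hub, hub, hub, fun u hadj hr => ?_⟩
          exfalso
          have hmu := hadj.2.1
          have hr1 : 1 ≤ rkD I u := by
            have : rkD I (Sum.inl (t, i)) = 1 := by simp only [rkD]; rw [if_pos hS]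
            omega
          have hSx : ∀ s j, u = Sum.inl (s, j) → Sx I s j := by
            intro s j hsj
            by_contra hn
            rw [hsj] at hr1
            simp only [rkD] at hr1
            rw [if_neg hn] at hr1
            omega
          rcases adj_inl hadj with ⟨j, h1, h2, -, h3⟩ | ⟨s, j, h1, h2, h3, -, h4⟩ | ⟨h1, -⟩ |
            ⟨h1, h2, h3⟩ | ⟨w, h1, h2, h3⟩ | ⟨h1, -⟩
          · have e1 : nx I t = t + 1 := by unfold nx; rw [if_neg (by omega)]
            rw [e1] at h3
            have := Sx_one hS (hSx _ _ h3) (by omega) (by omega)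
            omega
          · rcases nx_eq h2 h3 with ⟨h5, h6⟩ | ⟨h5, h6, -⟩
            · omega
            · have := Sx_one (hSx _ _ h4) hS (by omega) (by omega)
              omega
          · omega
          · have := Sx_bd (hSx _ _ h3)
            omega
          · exact hu ⟨w, by rw [← h3]; exact hmu, h1⟩
          · omega
      · obtain ⟨n₁, n₂, n₃, h⟩ := Pl_deg (Pl_mk (I := I) hm.1 hm.2 hS)
        exact ⟨n₁, n₂, n₃, fun u hu _ => h u hu⟩
    · exact ⟨hub, hub, hub, fun u hu _ => absurd hu.1 hm⟩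
  · refine ⟨hub, hub, hub, fun u hadj hr => ?_⟩
    exfalso
    rcases u with ⟨t, i⟩ | y | ⟨e, j⟩
    · simp only [rkD] at hr
      split_ifs at hr <;> omega
    · rcases adj_inr hadj with ⟨e, j, h, -⟩ | ⟨e, j, h, -⟩ <;> simp at h
    · simp [rkD] at hr
  · refine ⟨Sum.inr (Sum.inr (e, j + 1)), Sum.inr (Sum.inr (e, j - 1)),
      Sum.inr (Sum.inl (if j = 0 then (wr I e).1.1 else (wr I e).2.1)), fun u hadj hr => ?_⟩
    rcases u with ⟨t, i⟩ | w
    · exfalso
      simp only [rkD] at hr
      split_ifs at hr <;> omega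
    · rcases adj_inr hadj with ⟨e', j', h1, h2 | h2 | ⟨i, h2, h3⟩⟩ |
        ⟨e', j', h1, h2 | h2 | ⟨i, h2, h3⟩⟩
      · exact absurd h2.2 (by simp)
      · exact absurd h2.2 (by simp)
      · left
        simp only [Sum.inr.injEq, Prod.mk.injEq] at h2
        rw [h1, h3, h2.1, h2.2]
      · simp only [Sum.inr.injEq, Prod.mk.injEq] at h1
        obtain ⟨rfl, rfl⟩ := h1
        right; right
        rw [h2.2, h2.1]
        simp
      · simp only [Sum.inr.injEq, Prod.mk.injEq] at h1
        obtain ⟨rfl, rfl⟩ := h1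
        right; right
        rw [h2.2, if_neg (by omega)]
      · simp only [Sum.inr.injEq, Prod.mk.injEq] at h1
        obtain ⟨rfl, rfl⟩ := h1
        right; left
        rw [h2, h3]
        simp

theorem grk_degenerate {k : ℕ} (hk : 4 ≤ k) : Degenerate (grk I k) (k - 1) := by
  classical
  obtain ⟨e⟩ := exists_iso (I := I) k
  set r : VI I ⊕ Fin (k - 4) → ℕ := fun a => Sum.elim (fun a => rkD I a.1) (fun _ => 4) a with hr
  refine degenerate_of_rank _ _ (fun v => r (e v)) fun v => ?_
  have key : ∀ a : VI I ⊕ Fin (k - 4), ∃ N : Finset (VI I ⊕ Fin (k - 4)), N.card ≤ k - 1 ∧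
      ∀ u, (gH I k).Adj a u → r a ≤ r u → u ∈ N := by
    intro a
    rcases a with a | i
    · obtain ⟨n₁, n₂, n₃, hn⟩ := rkD_deg (I := I) a.1
      refine ⟨(Finset.subtype (fun b => b ∈ verts I) {n₁, n₂, n₃}).disjSum Finset.univ, ?_, ?_⟩
      · rw [Finset.card_disjSum, Finset.card_subtype, Finset.card_univ, Fintype.card_fin]
        have h1 := Finset.card_filter_le ({n₁, n₂, n₃} : Finset Lb) (fun b => b ∈ verts I)
        have h2 := Finset.card_le_three (a := n₁) (b := n₂) (c := n₃)
        omega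
      · intro u hu hru
        rcases u with b | j
        · rw [Finset.inl_mem_disjSum, Finset.mem_subtype]
          have := hn b.1 ⟨a.2, b.2, hu⟩ hru
          simpa using this
        · rw [Finset.inr_mem_disjSum]
          exact Finset.mem_univ _
    · refine ⟨(∅ : Finset (VI I)).disjSum Finset.univ, ?_, ?_⟩
      · rw [Finset.card_disjSum, Finset.card_univ, Fintype.card_fin, Finset.card_empty]
        omega
      · intro u hu hru
        rcases u with b | j
        · exfalso
          have := rkD_lt (I := I) b.1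
          simp only [hr, Sum.elim_inl, Sum.elim_inr] at hru
          omega
        · rw [Finset.inr_mem_disjSum]
          exact Finset.mem_univ _
  obtain ⟨N, hN, hN'⟩ := key (e v)
  refine ⟨N.map e.symm.toEquiv.toEmbedding, by rw [Finset.card_map]; exact hN, fun u hu hru => ?_⟩
  rw [Finset.mem_map]
  exact ⟨e u, hN' _ (e.map_adj_iff.2 hu) hru, e.symm_apply_apply u⟩

theorem grk_colorable {k : ℕ} (hk : 4 ≤ k) : (grk I k).Colorable (k - 2) := by
  obtain ⟨e⟩ := exists_iso (I := I) k
  have h0 : 0 < k - 2 := by omega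
  have h1 : 1 < k - 2 := by omega
  let c : VI I ⊕ Fin (k - 4) → Fin (k - 2) := fun a =>
    Sum.elim (fun a => if side a.1 = true then ⟨0, h0⟩ else ⟨1, h1⟩)
      (fun i => ⟨i.1 + 2, by have := i.2; omega⟩) a
  refine ⟨SimpleGraph.Coloring.mk (fun v => c (e v)) ?_⟩
  intro u v huv
  have h := e.map_adj_iff.2 huv
  revert h
  generalize e u = a
  generalize e v = b
  intro h
  rcases a with a | i <;> rcases b with b | j
  · have := adj_side (I := I) ⟨a.2, b.2, h⟩
    simp only [c, Sum.elim_inl]
    cases h2 : side a.1 <;> cases h3 : side b.1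
    · rw [h2, h3] at this; exact absurd rfl this
    · simp
    · simp
    · rw [h2, h3] at this; exact absurd rfl this
  · simp only [c, Sum.elim_inl, Sum.elim_inr]
    intro h4
    split_ifs at h4
    · have := congrArg Fin.val h4
      simp at this
    · have := congrArg Fin.val h4
      simp only at this
      omega
  · simp only [c, Sum.elim_inl, Sum.elim_inr]
    intro h4
    split_ifs at h4
    · have := congrArg Fin.val h4
      simp at this
    · have := congrArg Fin.val h4
      simp only at this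
      omega
  · simp only [c, Sum.elim_inr]
    intro h4
    have h5 := congrArg Fin.val h4
    simp only at h5
    exact h (Fin.ext (by omega))

theorem exists_lst {u : ℕ ⊕ (ℕ × ℕ)} : ∃ c < 4, lst I u c = false := by
  rcases u with x | ⟨e, j⟩
  · exact ⟨3, by omega, by simp [lst]⟩
  · have key : ∀ p q : ℕ, ∃ c < 4, c ≠ p ∧ c ≠ q := by
      intro p q
      by_contra hn
      push Not at hn
      have a0 := hn 0 (by omega)
      have a1 := hn 1 (by omega)
      have a2 := hn 2 (by omega)
      omega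
    simp only [lst]
    by_cases h0 : j = 0
    · obtain ⟨c, hc, h1, h2⟩ := key (wr I e).1.2 3
      exact ⟨c, hc, by simp [h0, h1, h2]⟩
    by_cases h1 : j = 1
    · obtain ⟨c, hc, h1', h2⟩ := key 3 (gam (wr I e).1.2 (wr I e).2.2)
      exact ⟨c, hc, by simp [h1, h1', h2]⟩
    by_cases h2 : j = 2
    · obtain ⟨c, hc, h1', h2'⟩ := key (gam (wr I e).1.2 (wr I e).2.2) (del (wr I e).1.2 (wr I e).2.2)
      exact ⟨c, hc, by simp [h2, h1', h2']⟩
    by_cases h3 : j = 3
    · obtain ⟨c, hc, h1', h2'⟩ := key (del (wr I e).1.2 (wr I e).2.2) 3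
      exact ⟨c, hc, by simp [h3, h1', h2']⟩
    · obtain ⟨c, hc, h1', h2'⟩ := key 3 (wr I e).2.2
      exact ⟨c, hc, by simp [h0, h1, h2, h3, h1', h2']⟩

theorem grk_connected {k : ℕ} : (grk I k).Connected := by
  obtain ⟨e⟩ := exists_iso (I := I) k
  have hT := nT_ge (I := I)
  have hh : hub ∈ verts I := (mem_chain I).2 (by omega)
  have hP : ∀ p (hp : Pl I p) (hp' : p ∈ verts I),
      (gH I k).Reachable (Sum.inl ⟨p, hp'⟩) (Sum.inl ⟨hub, hh⟩) := by
    intro p hp hp'
    have h := hconn p hp
    revert hp'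
    refine Relation.ReflTransGen.head_induction_on h (fun _ => SimpleGraph.Reachable.refl _) ?_
    intro a b hab _ ih hp'
    have hadj : (gH I k).Adj (Sum.inl ⟨a, hp'⟩) (Sum.inl ⟨b, hab.1.2.1⟩) := hab.1.2.2
    exact hadj.reachable.trans (ih hab.1.2.1)
  have hC : ∀ t i (hp' : (Sum.inl (t, i) : Lb) ∈ verts I),
      (gH I k).Reachable (Sum.inl ⟨Sum.inl (t, i), hp'⟩) (Sum.inl ⟨hub, hh⟩) := by
    intro t i hp'
    have hm := (mem_chain I).1 hp'
    by_cases hS : Sx I t i
    · have hb := Sx_bd hS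
      by_cases hi : i < 3
      · have h1 := adj_chain (I := I) (t := t) (i := i) (j := 3) (by omega) hi (by omega)
        have h2 : ¬ Sx I (t + 1) 3 := fun h => by
          have := Sx_one hS h (by omega) (by omega)
          omega
        have h3 : (gH I k).Adj (Sum.inl ⟨Sum.inl (t, i), hp'⟩)
          (Sum.inl ⟨Sum.inl (t + 1, 3), h1.2.1⟩) := h1.2.2
        exact h3.reachable.trans (hP _ (Pl_mk (by omega) (by omega) h2) _)
      · have h1 := adj_chain (I := I) (t := t - 1) (i := 0) (j := i) (by omega) (by omega) hm.2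
        rw [show t - 1 + 1 = t by omega] at h1
        have h2 : ¬ Sx I (t - 1) 0 := fun h => by
          have := Sx_one h hS (by omega) (by omega)
          omega
        have h3 : (gH I k).Adj (Sum.inl ⟨Sum.inl (t, i), hp'⟩)
          (Sum.inl ⟨Sum.inl (t - 1, 0), h1.1⟩) := (adj_symm h1).2.2
        exact h3.reachable.trans (hP _ (Pl_mk (by omega) (by omega) h2) _)
    · exact hP _ (Pl_mk hm.1 hm.2 hS) _
  have hA : ∀ a : VI I, (gH I k).Reachable (Sum.inl a) (Sum.inl ⟨hub, hh⟩) := by
    rintro ⟨⟨t, i⟩ | u, hp'⟩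
    · exact hC t i hp'
    · obtain ⟨c, hc, hl⟩ := exists_lst (I := I) (u := u)
      have h1 := adj_slot hp' hc hl
      have h3 : (gH I k).Adj (Sum.inl ⟨Sum.inr u, hp'⟩) (Sum.inl ⟨Sum.inl (slot I u c, c), h1.1⟩) :=
        (adj_symm h1).2.2
      exact h3.reachable.trans (hC _ _ h1.1)
  have hB : ∀ a : VI I ⊕ Fin (k - 4), (gH I k).Reachable a (Sum.inl ⟨hub, hh⟩) := by
    rintro (a | i)
    · exact hA a
    · have h3 : (gH I k).Adj (Sum.inr i) (Sum.inl ⟨hub, hh⟩) := trivial
      exact h3.reachable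
  have hcon : (gH I k).Connected := by
    haveI : Nonempty (VI I ⊕ Fin (k - 4)) := ⟨Sum.inl ⟨hub, hh⟩⟩
    exact ⟨fun a b => (hB a).trans (hB b).symm⟩
  exact e.connected_iff.2 hcon

end

open Pool.Agent.H623R2.PS (InPSPACE PSPACEHard PSPACEComplete)

/-- the reduction, with the properties of its values -/
theorem hard_restricted {k : ℕ} (hk : 4 ≤ k) (L : Set (List Bool)) (hL : InPSPACE L) :
    ∃ f : List Bool → List (List Bool), PolyTime (fun x => bits (f x)) ∧
      ∀ x, (∃ (n : ℕ) (G : SimpleGraph (Fin n)), R671.adjMatrix G = f x ∧ G.Connected ∧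
        G.Colorable (k - 2) ∧ Degenerate G (k - 1)) ∧ (x ∈ L ↔ COLOUR_MIXING k (f x)) := by
  obtain ⟨V, _, X, n, φ, hX, hX', hn, hφ, hn0, hr, hL'⟩ := T2.exists_relsys hL
  obtain ⟨nc, hnc, hok, hgood⟩ := T3b.exists_nc hX hX' hn hφ
  have h1 : Poly (fun x : List Bool => matk (nc x) k) := Poly.comp (T9.poly_matk k) hnc
  refine ⟨fun x => matk (nc x) k, ?_, fun x => ⟨⟨_, grk (nc x) k, ?_, grk_connected,
    grk_colorable hk, grk_degenerate hk⟩, ?_⟩⟩
  · exact PC.toPolyTime (PC.comp (ea := fun x : List Bool => x) (eb := (bits : List Bool → List Bool))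
      (ec := bits) (g := fun x : List Bool => matk (nc x) k) (f := fun x => x) h1 PC.ofBits)
  · exact R671.adjMatrix_listGraph _ _ _ _
  · rw [correct (hok x) hk, hgood x, T3.csp_good (φ x) X (n x) hX (hn0 x) (hr x), hL' x]

end Pool.Agent.Y646.MX
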